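import Pool.Agent.Q165.NCS.Main

/-!
# MP_f3bbeb_co, Q1

Let `P` be a finite set of points of the plane which is a hull configuration (all points on a
segment, or all points on the boundary of `Conv(P)`), not contained in a line, such that no side of
`Conv(P)` is blank. Then the lattice `NC(P)` of noncrossing partitions of `P` is not
rank-symmetric.

Definitions (`Pool/Agent/Q165/NCS/Defs.lean`): `Pt = ℝ × ℝ`, `Noncrossing`, `NC`,
`HullConfiguration`, `IsSide`, `BlankSide`, `GradedOfRank`, `rankCount`, `RankSymmetric`.
-/

namespace Pool.Agent.Results.MP_f3bbeb_co.NotRankSymmetric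

open Q165.NCS

/-- A hull configuration which is not contained in a line and has no blank side has a
noncrossing partition lattice which is not rank-symmetric. -/
theorem result (P : Finset (ℝ × ℝ)) (hP : HullConfiguration P)
    (hline : ¬ Collinear ℝ (P : Set (ℝ × ℝ)))
    (hblank : ∀ a b : ℝ × ℝ, ¬ BlankSide P a b) :
    ¬ RankSymmetric (NC P) :=
  Q165.NCS.main P hP hline hblank

end Pool.Agent.Results.MP_f3bbeb_co.NotRankSymmetric
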